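import Pool.Agent.W401.FL.Defs

/-! # Continuous representations of compact groups over the algebraic closure of `ℚ_[p]` are defined
over a finite extension -/

set_option autoImplicit false

namespace Pool.Agent.W338.FL

open Matrix

theorem FE : Pool.Agent.W401.FL.TaskFE := by
  intro hKR p _ G _ _ _ _ _ n ρ hρ
  obtain ⟨E, hmono, hfin, hE⟩ := hKR p
  -- coefficients
  have hval : ∀ i j, Continuous fun g => (ρ g : Matrix (Fin n) (Fin n) (PadicAlgCl p)) i j := by
    intro i j
    have h1 : Continuous fun g => (ρ g : Matrix (Fin n) (Fin n) (PadicAlgCl p)) :=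
      Units.continuous_val.comp hρ
    exact h1.matrix_elem i j
  have hEc : ∀ k, IsClosed (E k : Set (PadicAlgCl p)) := by
    intro k
    have := hfin k
    exact Submodule.closed_of_finiteDimensional (E k).toSubalgebra.toSubmodule
  -- a finite family of elements is in some `E k`
  have hfam : ∀ (ι : Type) [Finite ι] (x : ι → PadicAlgCl p), ∃ k, ∀ i, x i ∈ E k := by
    intro ι _ x
    choose m hm using fun i => hE (x i)
    obtain ⟨k, hk⟩ := (Set.finite_range m).bddAbove
    exact ⟨k, fun i => hmono (hk ⟨i, rfl⟩) (hm i)⟩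
  let S : ℕ → Subgroup G := fun k =>
    { carrier := {g | ∀ i j, (ρ g : Matrix (Fin n) (Fin n) (PadicAlgCl p)) i j ∈ E k ∧
        (ρ g⁻¹ : Matrix (Fin n) (Fin n) (PadicAlgCl p)) i j ∈ E k}
      mul_mem' := by
        intro a b ha hb i j
        constructor
        · rw [map_mul, Units.val_mul, Matrix.mul_apply]
          exact sum_mem fun l _ => mul_mem (ha i l).1 (hb l j).1
        · rw [_root_.mul_inv_rev, map_mul, Units.val_mul, Matrix.mul_apply]
          exact sum_mem fun l _ => mul_mem (hb i l).2 (ha l j).2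
      one_mem' := by
        intro i j
        have h1 : (ρ 1 : Matrix (Fin n) (Fin n) (PadicAlgCl p)) i j ∈ E k := by
          rw [map_one, Units.val_one, Matrix.one_apply]
          split_ifs
          · exact one_mem _
          · exact zero_mem _
        exact ⟨h1, by rw [inv_one]; exact h1⟩
      inv_mem' := by
        intro a ha i j
        exact ⟨(ha i j).2, by rw [inv_inv]; exact (ha i j).1⟩ }
  have hSc : ∀ k, IsClosed (S k : Set G) := by
    intro k
    have h1 : (S k : Set G) = ⋂ i, ⋂ j,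
        ((fun g => (ρ g : Matrix (Fin n) (Fin n) (PadicAlgCl p)) i j) ⁻¹' (E k : Set (PadicAlgCl p)) ∩
        (fun g => (ρ g⁻¹ : Matrix (Fin n) (Fin n) (PadicAlgCl p)) i j) ⁻¹'
          (E k : Set (PadicAlgCl p))) := by
      ext g
      simp only [Set.mem_iInter]
      rfl
    rw [h1]
    refine isClosed_iInter fun i => isClosed_iInter fun j => ?_
    exact ((hEc k).preimage (hval i j)).inter ((hEc k).preimage ((hval i j).comp continuous_inv))
  have hSu : ⋃ k, (S k : Set G) = Set.univ := by
    refine Set.eq_univ_of_forall fun g => ?_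
    obtain ⟨k, hk⟩ := hfam (Fin n × Fin n)
      (fun q => (ρ g : Matrix (Fin n) (Fin n) (PadicAlgCl p)) q.1 q.2)
    obtain ⟨k', hk'⟩ := hfam (Fin n × Fin n)
      (fun q => (ρ g⁻¹ : Matrix (Fin n) (Fin n) (PadicAlgCl p)) q.1 q.2)
    rw [Set.mem_iUnion]
    refine ⟨max k k', fun i j => ⟨?_, ?_⟩⟩
    · exact hmono (le_max_left k k') (hk (i, j))
    · exact hmono (le_max_right k k') (hk' (i, j))
  obtain ⟨k, hk⟩ := nonempty_interior_of_iUnion_of_closed hSc hSu
  obtain ⟨g₀, hg₀⟩ := hk
  have hopen : IsOpen (S k : Set G) :=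
    (S k).isOpen_of_mem_nhds (mem_interior_iff_mem_nhds.mp hg₀)
  have : Finite (G ⧸ S k) := (S k).quotient_finite_of_isOpen hopen
  obtain ⟨k', hk'⟩ := hfam ((G ⧸ S k) × Fin n × Fin n)
    (fun q => (ρ (Quotient.out q.1) : Matrix (Fin n) (Fin n) (PadicAlgCl p)) q.2.1 q.2.2)
  refine ⟨E (max k k'), hfin _, fun g i j => ?_⟩
  obtain ⟨h, hh⟩ := QuotientGroup.mk_out_eq_mul (S k) g
  have hg : g = Quotient.out (g : G ⧸ S k) * (h : G)⁻¹ := by
    rw [hh]; group
  have hh2 : (h : G)⁻¹ ∈ S k := (S k).inv_mem h.2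
  rw [hg, map_mul, Units.val_mul, Matrix.mul_apply]
  refine sum_mem fun l _ => mul_mem ?_ ?_
  · exact hmono (le_max_right k k') (hk' ((g : G ⧸ S k), i, l))
  · exact hmono (le_max_left k k') (hh2 l j).1

end Pool.Agent.W338.FL
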