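import Pool.Agent.W401.FL.Defs

/-! # The algebraic closure of `ℚ_[p]` is the union of a chain of finite extensions -/

set_option autoImplicit false

namespace Pool.Agent.W338.FL

open Polynomial

/-- Krasner: every element is in `ℚ_[p](y)` for some `y` algebraic over `ℚ`. -/
theorem krasner_alg (p : ℕ) [Fact p.Prime] (a : PadicAlgCl p) :
    ∃ y : PadicAlgCl p, IsAlgebraic ℚ y ∧ a ∈ IntermediateField.adjoin ℚ_[p] {y} := by
  have hi : DenseRange (algebraMap ℚ ℚ_[p]) := Padic.denseRange_ratCast p
  have haint : IsIntegral ℚ_[p] a := Algebra.IsIntegral.isIntegral a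
  set f := minpoly ℚ_[p] a with hf
  have fmon : f.Monic := minpoly.monic haint
  have firr : Irreducible f := minpoly.irreducible haint
  have fnatdeg0 : f.natDegree ≠ 0 := (Irreducible.natDegree_pos firr).ne'
  have fa0 : f.aeval a = 0 := minpoly.aeval _ _
  classical
    let S : Finset (PadicAlgCl p) := {x ∈ (f.rootSet (PadicAlgCl p)).toFinset | x ≠ a}
  let δ : ℝ := if hS : S.Nonempty then Finset.min' (S.image fun x => ‖a - x‖)
      (Finset.image_nonempty.mpr hS) else 1
  have norm_sub_le : ∀ a' : PadicAlgCl p, IsConjRoot ℚ_[p] a a' → a ≠ a' → δ ≤ ‖a - a'‖ := by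
    intro a' conj ne
    by_cases hS : S.Nonempty <;> simp only [hS, ↓reduceDIte, δ]
    · apply Finset.min'_le (S.image fun x => ‖a - x‖) (‖a - a'‖)
      apply Finset.mem_image_of_mem
      simp only [Finset.mem_filter, Set.mem_toFinset, S]
      rw [hf, ← (isConjRoot_iff_mem_minpoly_rootSet haint)]
      exact ⟨conj, ne.symm⟩
    · simp only [ne_eq, Finset.not_nonempty_iff_eq_empty, Finset.filter_eq_empty_iff,
      Set.mem_toFinset, not_not, S] at hS
      rw [isConjRoot_iff_mem_minpoly_rootSet haint] at conj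
      exact (ne (hS conj).symm).elim
  have δpos : δ > 0 := by
    by_cases hS : S.Nonempty <;> simp only [hS, ↓reduceDIte, δ]
    · simp only [gt_iff_lt, Finset.lt_min'_iff, Finset.mem_image, forall_exists_index, and_imp,
        forall_apply_eq_imp_iff₂]
      rintro a' ha'
      simp only [Finset.mem_filter, Set.mem_toFinset, S] at ha'
      rw [norm_pos_iff, sub_ne_zero]
      exact ha'.2.symm
    · linarith
  have hε : (δ / (max ‖a‖ 1)) ^ f.natDegree / (f.natDegree + 1) > 0 := by positivity
  obtain ⟨g, gmon, gdeg, gcoeff⟩ :=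
    exists_monic_and_natDegree_eq_and_norm_map_algebraMap_coeff_sub_lt hi fmon hε
  let ⟨b, hb, hab⟩ := exists_aroots_norm_sub_lt_of_norm_coeff_sub_lt
      hε fa0 fmon (gmon.map _) (gdeg ▸ (g.natDegree_map _)) gcoeff
      (IsAlgClosed.splits _)
  have hab : ‖a - b‖ < δ := by
    rw [← Real.rpow_natCast, ← mul_comm_div, div_self, one_mul,
        ← Real.rpow_mul (div_pos δpos (by positivity)).le, mul_inv_cancel₀] at hab
    · simpa [mul_assoc, div_mul_cancel₀ _ (by positivity : (max ‖a‖ 1) > 0).ne'] using hab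
    · simp [fnatdeg0]
    · positivity
  have hbroot : aeval b g = 0 := by
    simp only [Polynomial.mem_roots', ne_eq, Polynomial.map_eq_zero, Polynomial.IsRoot.def,
      Polynomial.eval_map_algebraMap, Polynomial.aroots_def] at hb
    have h2 := hb.2
    rw [Polynomial.aeval_map_algebraMap] at h2
    exact h2
  refine ⟨b, ⟨g, gmon.ne_zero, hbroot⟩, ?_⟩
  exact IsKrasner.krasner firr.separable (IsAlgClosed.splits _)
    (Algebra.IsIntegral.isIntegral b) fun a' h1 h2 ↦ lt_of_lt_of_le hab (norm_sub_le a' h1 h2)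

theorem main : Pool.Agent.W401.FL.TaskKR := by
  intro p _
  have hc : Set.Countable {x : PadicAlgCl p | IsAlgebraic ℚ x} := Algebraic.countable ℚ _
  obtain ⟨y, hy⟩ := hc.exists_eq_range ⟨0, isAlgebraic_zero⟩
  refine ⟨fun k => IntermediateField.adjoin ℚ_[p] (y '' (Set.Iic k)), ?_, ?_, ?_⟩
  · intro k l hkl
    exact IntermediateField.adjoin.mono _ _ _ (Set.image_mono (Set.Iic_subset_Iic.mpr hkl))
  · intro k
    have : Finite (y '' (Set.Iic k)) := (Set.finite_Iic k).image y
    exact IntermediateField.finiteDimensional_adjoin fun x _ => Algebra.IsIntegral.isIntegral x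
  · intro x
    obtain ⟨z, hz, hxz⟩ := krasner_alg p x
    have : z ∈ Set.range y := by rw [← hy]; exact hz
    obtain ⟨k, rfl⟩ := this
    refine ⟨k, ?_⟩
    refine IntermediateField.adjoin.mono _ _ _ ?_ hxz
    rw [Set.singleton_subset_iff]
    exact ⟨k, Set.mem_Iic.mpr le_rfl, rfl⟩

end Pool.Agent.W338.FL
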